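import Pool.Agent.W921.SF.Stm
import Pool.Agent.Helper227.EN.Alg
import Pool.Agent.Helper227.ENJ.P_std_below

/-!
A calculus of predicates given by bounded formulas.
-/

set_option autoImplicit false

open FirstOrder FirstOrder.Language Pool.Agent.Helper227.EN

namespace Pool.Agent.W894.SG

open Pool.Agent.W921.SF

section

variable {M : Type} [LA.Structure M]

/-- the function is given by a term -/
def TE (n : ℕ) (f : (ℕ → M) → (Fin n → M) → M) : Prop :=
  ∃ t : LA.Term (ℕ ⊕ Fin n), ∀ v xs, t.realize (Sum.elim v xs) = f v xs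

/-- the predicate is given by a bounded formula -/
def DP (n : ℕ) (R : (ℕ → M) → (Fin n → M) → Prop) : Prop :=
  ∃ φ : LA.BoundedFormula ℕ n, D0 φ ∧ ∀ v xs, φ.Realize v xs ↔ R v xs

variable {n : ℕ}

theorem TE.var (i : ℕ) : TE n fun (v : ℕ → M) _ => v i := ⟨Term.var (Sum.inl i), fun _ _ => rfl⟩

theorem TE.bv (i : Fin n) : TE n fun (_ : ℕ → M) xs => xs i := ⟨Term.var (Sum.inr i), fun _ _ => rfl⟩

theorem TE.lift {f : (ℕ → M) → (Fin n → M) → M} (h : TE n f) :
    TE (n + 1) fun v xs => f v (Fin.init xs) := by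
  obtain ⟨t, ht⟩ := h
  refine ⟨t.relabel (Sum.map id Fin.castSucc), fun v xs => ?_⟩
  show _ = f v (Fin.init xs)
  rw [Term.realize_relabel, ← ht]
  congr 1
  funext a
  rcases a with a | a <;> rfl

theorem DP.congr {R R' : (ℕ → M) → (Fin n → M) → Prop} (h : DP n R)
    (hR : ∀ v xs, R v xs ↔ R' v xs) : DP n R' := by
  obtain ⟨φ, h1, h2⟩ := h
  exact ⟨φ, h1, fun v xs => (h2 v xs).trans (hR v xs)⟩

theorem DP.eq {f g : (ℕ → M) → (Fin n → M) → M} (hf : TE n f) (hg : TE n g) :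
    DP n fun v xs => f v xs = g v xs := by
  obtain ⟨t, ht⟩ := hf
  obtain ⟨s, hs⟩ := hg
  refine ⟨BoundedFormula.equal t s, D0.equal t s, fun v xs => ?_⟩
  beta_reduce
  rw [← ht, ← hs]
  rfl

theorem DP.false' : DP n fun (_ : ℕ → M) _ => False := ⟨_, D0.falsum, fun _ _ => Iff.rfl⟩

theorem DP.imp {R R' : (ℕ → M) → (Fin n → M) → Prop} (h : DP n R) (h' : DP n R') :
    DP n fun v xs => R v xs → R' v xs := by
  obtain ⟨φ, h1, h2⟩ := h
  obtain ⟨ψ, h3, h4⟩ := h'
  refine ⟨φ.imp ψ, D0.imp h1 h3, fun v xs => ?_⟩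
  rw [BoundedFormula.realize_imp, h2, h4]

theorem DP.not {R : (ℕ → M) → (Fin n → M) → Prop} (h : DP n R) : DP n fun v xs => ¬ R v xs :=
  h.imp DP.false'

theorem DP.true' : DP n fun (_ : ℕ → M) _ => True :=
  DP.false'.not.congr fun _ _ => by tauto

theorem DP.const (P : Prop) : DP n fun (_ : ℕ → M) _ => P := by
  by_cases hP : P
  · exact DP.true'.congr fun _ _ => by tauto
  · exact DP.false'.congr fun _ _ => by tauto

theorem DP.or {R R' : (ℕ → M) → (Fin n → M) → Prop} (h : DP n R) (h' : DP n R') :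
    DP n fun v xs => R v xs ∨ R' v xs :=
  (h.not.imp h').congr fun _ _ => by tauto

theorem DP.and {R R' : (ℕ → M) → (Fin n → M) → Prop} (h : DP n R) (h' : DP n R') :
    DP n fun v xs => R v xs ∧ R' v xs :=
  (h.imp h'.not).not.congr fun _ _ => by tauto

theorem DP.iff {R R' : (ℕ → M) → (Fin n → M) → Prop} (h : DP n R) (h' : DP n R') :
    DP n fun v xs => (R v xs ↔ R' v xs) :=
  ((h.imp h').and (h'.imp h)).congr fun _ _ => by tauto

theorem DP.any {k : ℕ} {R : ℕ → (ℕ → M) → (Fin n → M) → Prop} (h : ∀ i < k, DP n (R i)) :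
    DP n fun v xs => ∃ i < k, R i v xs := by
  induction k with
  | zero => exact DP.false'.congr fun _ _ => by simp
  | succ k ih =>
    refine ((ih fun i hi => h i (by omega)).or (h k (by omega))).congr fun v xs => ?_
    constructor
    · rintro (⟨i, hi, h0⟩ | h0)
      · exact ⟨i, by omega, h0⟩
      · exact ⟨k, by omega, h0⟩
    · rintro ⟨i, hi, h0⟩
      rcases Nat.lt_succ_iff_lt_or_eq.1 hi with h1 | rfl
      · exact Or.inl ⟨i, h1, h0⟩
      · exact Or.inr h0

end

section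

variable {M : Type} [CommSemiring M] [LinearOrder M] [LA.Structure M] {n : ℕ}

theorem TE.add (hc : Compat M) {f g : (ℕ → M) → (Fin n → M) → M} (hf : TE n f) (hg : TE n g) :
    TE n fun v xs => f v xs + g v xs := by
  obtain ⟨t, ht⟩ := hf
  obtain ⟨s, hs⟩ := hg
  refine ⟨tadd t s, fun v xs => ?_⟩
  rw [ea_tadd, ht, hs, hc.add]

theorem TE.mul (hc : Compat M) {f g : (ℕ → M) → (Fin n → M) → M} (hf : TE n f) (hg : TE n g) :
    TE n fun v xs => f v xs * g v xs := by
  obtain ⟨t, ht⟩ := hf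
  obtain ⟨s, hs⟩ := hg
  refine ⟨tmul t s, fun v xs => ?_⟩
  rw [ea_tmul, ht, hs, hc.mul]

theorem TE.zero (hc : Compat M) : TE n fun (_ : ℕ → M) _ => (0 : M) :=
  ⟨t0, fun v xs => by rw [ea_t0, hc.zero]⟩

theorem TE.one (hc : Compat M) : TE n fun (_ : ℕ → M) _ => (1 : M) :=
  ⟨t1, fun v xs => by rw [ea_t1, hc.one]⟩

theorem TE.nat (hc : Compat M) (k : ℕ) : TE n fun (_ : ℕ → M) _ => (k : M) := by
  induction k with
  | zero => simpa using TE.zero hc
  | succ k ih => simpa using ih.add hc (TE.one hc)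

theorem TE.sum (hc : Compat M) (k : ℕ) {f : ℕ → (ℕ → M) → (Fin n → M) → M}
    (h : ∀ i < k, TE n (f i)) : TE n fun v xs => ∑ i ∈ Finset.range k, f i v xs := by
  induction k with
  | zero => simpa using TE.zero hc
  | succ k ih =>
    simp only [Finset.sum_range_succ]
    exact (ih fun i hi => h i (by omega)).add hc (h k (by omega))

theorem DP.lt (hc : Compat M) {f g : (ℕ → M) → (Fin n → M) → M} (hf : TE n f) (hg : TE n g) :
    DP n fun v xs => f v xs < g v xs := by
  obtain ⟨t, ht⟩ := hf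
  obtain ⟨s, hs⟩ := hg
  refine ⟨flt t s, D0.lt t s, fun v xs => ?_⟩
  rw [ea_flt, ht, hs, hc.lt]

theorem DP.le (hc : Compat M) {f g : (ℕ → M) → (Fin n → M) → M} (hf : TE n f) (hg : TE n g) :
    DP n fun v xs => f v xs ≤ g v xs :=
  (DP.lt hc hg hf).not.congr fun _ _ => not_lt

theorem DP.ball (hc : Compat M) {f : (ℕ → M) → (Fin n → M) → M} (hf : TE n f)
    {R : (ℕ → M) → (Fin n → M) → M → Prop}
    (h : DP (n + 1) fun v xs => R v (Fin.init xs) (xs (Fin.last n))) :
    DP n fun v xs => ∀ y < f v xs, R v xs y := by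
  obtain ⟨t, ht⟩ := hf
  obtain ⟨φ, h1, h2⟩ := h
  refine ⟨_, D0.ball t h1, fun v xs => ?_⟩
  rw [BoundedFormula.realize_all]
  refine forall_congr' fun y => ?_
  rw [BoundedFormula.realize_imp, h2, ea_flt, hc.lt]
  have e1 : (t.relabel (Sum.map id Fin.castSucc)).realize (Sum.elim v (Fin.snoc xs y)) =
      f v xs := by
    rw [Term.realize_relabel, ← ht]
    congr 1
    funext a
    rcases a with a | a
    · rfl
    · exact Fin.snoc_castSucc (α := fun _ => M) y xs a
  have e2 : (Helper227.EN.bv (Fin.last n) : LA.Term (ℕ ⊕ Fin (n + 1))).realize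
      (Sum.elim v (Fin.snoc xs y : Fin (n + 1) → M)) = y := by
    exact Fin.snoc_last (α := fun _ => M) y xs
  rw [e1, e2]
  beta_reduce
  rw [Fin.init_snoc, Fin.snoc_last]

theorem DP.bex (hc : Compat M) {f : (ℕ → M) → (Fin n → M) → M} (hf : TE n f)
    {R : (ℕ → M) → (Fin n → M) → M → Prop}
    (h : DP (n + 1) fun v xs => R v (Fin.init xs) (xs (Fin.last n))) :
    DP n fun v xs => ∃ y < f v xs, R v xs y := by
  refine (DP.ball hc hf (R := fun v xs y => ¬ R v xs y) h.not).not.congr fun v xs => ?_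
  push Not
  rfl

end

end Pool.Agent.W894.SG
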