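import Pool.Agent.W921.SF.Stm
import Pool.Agent.H623R3.JC.P_BT
import Pool.Agent.H623R3.JC.P_IND
import Pool.Agent.H623R3.JC.P_CALC1
import Pool.Agent.H623R3.JC.P_CALC2
import Pool.Agent.H623R3.JC.P_NPA

/-!
The formulas used in the diagonalisation.
-/

set_option autoImplicit false
set_option linter.unusedSectionVars false

open FirstOrder FirstOrder.Language Pool.Agent.Helper227.EN

namespace Pool.Agent.W894.SG

open Pool.Agent.W921.SF Pool.Agent.H623R3.JC Nat.Partrec
open Pool.Agent.Helper578.JD Pool.Agent.Helper578.JD.Defs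

/-- saturated models of PA are nonstandard -/
theorem npa_of_satu (M : Type) [LA.Structure M] (hPA : M ⊨ PA) (hS : Satu M) :
    ∃ (_ : CommSemiring M) (_ : LinearOrder M) (_ : IsStrictOrderedRing M)
      (_ : CanonicallyOrderedAdd M), NPA M := by
  have : Nonempty M := ⟨Structure.funMap (L := LA) AF.zero ![]⟩
  have hm : M ⊨ PAminus := Theory.Model.mono hPA (by
    intro φ hφ
    exact Or.inl hφ)
  obtain ⟨i1, i2, i3, i4, hc⟩ := exists_alg M hm
  refine ⟨i1, i2, i3, i4, ⟨hc, hPA, ?_⟩⟩
  have key : ∀ (j : ℕ) (y : ℕ → M), Formula.Realize (L := LA)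
      (flt (num j) (Term.var (Sum.inl 0)) : LA.Formula ℕ) y ↔ (j : M) < y 0 := by
    intro j y
    unfold Formula.Realize
    rw [ea_flt, npa_num hc, hc.lt]
    rfl
  obtain ⟨y, -, hy⟩ := hS (fun _ => 0) 0 (fun j => flt (num j) (Term.var (Sum.inl 0))) (by
    intro s
    refine ⟨fun _ => (s : M), fun i hi => absurd hi (Nat.not_lt_zero _), fun j hj => ?_⟩
    rw [key]
    exact_mod_cast hj)
  exact ⟨y 0, fun n => (key n y).1 (hy n)⟩

section

variable {M : Type} [CommSemiring M] [LinearOrder M] [IsStrictOrderedRing M]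
  [CanonicallyOrderedAdd M] [LA.Structure M]

theorem p4_eta (m : ℕ) : p4 m.unpair.1 m.unpair.2.unpair.1 m.unpair.2.unpair.2.unpair.1
    m.unpair.2.unpair.2.unpair.2 = m := by
  unfold p4
  simp only [Nat.pair_unpair]

theorem pr_u1 : Primrec fun m : ℕ => m.unpair.1 := Primrec.fst.comp Primrec.unpair
theorem pr_u2 : Primrec fun m : ℕ => m.unpair.2 := Primrec.snd.comp Primrec.unpair

theorem dd_q0 (h1 : S_UF) (hM : NPA M) {k n : ℕ} (hk : 1 ≤ k) (hn : 1 ≤ n) :
    DD (M := M) fun x ν => Q n (p4 (ν 0) (ν 1) (ν 2) (ν 3)) (tr k x) := by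
  obtain ⟨φ, -, h⟩ := h1 M hM k n hk hn
  refine ⟨_, mix_dfn_proj hM.compat ⟨φ, fun _ => Iff.rfl⟩
    (fun i => if i < 4 then 2 * i + 1 else 2 * (i - 4)), fun x ν => ?_⟩
  rw [h (ν 0) (ν 1) (ν 2) (ν 3)]
  · have e1 : (fun i => mix x ν (if 4 + i < 4 then 2 * (4 + i) + 1 else 2 * (4 + i - 4))) = x := by
      funext i
      rw [if_neg (by omega), mix_even]
      congr 1
      omega
    rw [e1]
  · exact mix_odd x ν 0
  · exact mix_odd x ν 1
  · exact mix_odd x ν 2
  · exact mix_odd x ν 3

theorem dd_q (h1 : S_UF) (hM : NPA M) {k n : ℕ} (hk : 1 ≤ k) (hn : 1 ≤ n) (g : ℕ → ℕ)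
    (hg : Primrec g) : DD (M := M) fun x ν => Q n (g (ν 2)) (tr k x) := by
  have C1 := prf_calc1 M hM
  have C2 := prf_calc2 M hM (prf_bt prf_ind) C1
  have A0 : DD (M := M) fun x ν => Q n (p4 (ν 10) (ν 11) (ν 12) (ν 13)) (tr k x) :=
    C1.ren (fun i => i) (fun i => i + 10) (dd_q0 h1 hM hk hn)
  have A1 : DD (M := M) fun x ν => Q n (p4 (g (ν 2)).unpair.1 (ν 11) (ν 12) (ν 13)) (tr k x) :=
    C2.subst (fun x ν i => Q n (p4 i (ν 11) (ν 12) (ν 13)) (tr k x)) 10
      (by intro x ν i v; simp [Function.update_of_ne]) A0 (fun ν => (g (ν 2)).unpair.1)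
      (C2.prim (fun m => (g m).unpair.1) (pr_u1.comp hg) _ (C2.var 2))
  have A2 : DD (M := M) fun x ν => Q n (p4 (g (ν 2)).unpair.1 (g (ν 2)).unpair.2.unpair.1 (ν 12)
      (ν 13)) (tr k x) :=
    C2.subst (fun x ν i => Q n (p4 (g (ν 2)).unpair.1 i (ν 12) (ν 13)) (tr k x)) 11
      (by intro x ν i v; simp [Function.update_of_ne]) A1 (fun ν => (g (ν 2)).unpair.2.unpair.1)
      (C2.prim (fun m => (g m).unpair.2.unpair.1) (pr_u1.comp (pr_u2.comp hg)) _ (C2.var 2))
  have A3 : DD (M := M) fun x ν => Q n (p4 (g (ν 2)).unpair.1 (g (ν 2)).unpair.2.unpair.1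
      (g (ν 2)).unpair.2.unpair.2.unpair.1 (ν 13)) (tr k x) :=
    C2.subst (fun x ν i => Q n (p4 (g (ν 2)).unpair.1 (g (ν 2)).unpair.2.unpair.1 i (ν 13))
        (tr k x)) 12
      (by intro x ν i v; simp [Function.update_of_ne]) A2
      (fun ν => (g (ν 2)).unpair.2.unpair.2.unpair.1)
      (C2.prim (fun m => (g m).unpair.2.unpair.2.unpair.1)
        (pr_u1.comp (pr_u2.comp (pr_u2.comp hg))) _ (C2.var 2))
  have A4 : DD (M := M) fun x ν => Q n (p4 (g (ν 2)).unpair.1 (g (ν 2)).unpair.2.unpair.1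
      (g (ν 2)).unpair.2.unpair.2.unpair.1 (g (ν 2)).unpair.2.unpair.2.unpair.2) (tr k x) :=
    C2.subst (fun x ν i => Q n (p4 (g (ν 2)).unpair.1 (g (ν 2)).unpair.2.unpair.1
        (g (ν 2)).unpair.2.unpair.2.unpair.1 i) (tr k x)) 13
      (by intro x ν i v; simp [Function.update_of_ne]) A3
      (fun ν => (g (ν 2)).unpair.2.unpair.2.unpair.2)
      (C2.prim (fun m => (g m).unpair.2.unpair.2.unpair.2)
        (pr_u2.comp (pr_u2.comp (pr_u2.comp hg))) _ (C2.var 2))
  simpa only [p4_eta] using A4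

/-- the program `e` halts on `p` after `w` steps -/
def Tq (e p w : ℕ) : Prop := (Code.evaln w (Denumerable.ofNat Code e) p).isSome = true

theorem W_iff (e p : ℕ) : W e p ↔ ∃ w, Tq e p w := by
  unfold W Tq
  constructor
  · intro h
    have h1 := Part.get_mem h
    obtain ⟨w, hw⟩ := Code.evaln_complete.1 h1
    exact ⟨w, Option.isSome_iff_exists.2 ⟨_, hw⟩⟩
  · rintro ⟨w, hw⟩
    obtain ⟨a, ha⟩ := Option.isSome_iff_exists.1 hw
    exact Part.dom_iff_mem.2 ⟨a, Code.evaln_sound ha⟩

theorem dd_tq (hM : NPA M) : DD (M := M) fun _ ν => Tq (ν 0) (ν 2) (ν 3) := by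
  have C1 := prf_calc1 M hM
  have C2 := prf_calc2 M hM (prf_bt prf_ind) C1
  have h := C2.rel (fun m => Tq m.unpair.1 m.unpair.2.unpair.1 m.unpair.2.unpair.2)
    ⟨fun m => (Code.evaln m.unpair.2.unpair.2 (Denumerable.ofNat Code m.unpair.1)
      m.unpair.2.unpair.1).isSome, ?_, fun n => Iff.rfl⟩
    (fun ν => Nat.pair (ν 0) (Nat.pair (ν 2) (ν 3)))
    (C2.prim2 Nat.pair Primrec₂.natPair _ _ (C2.var 0) (C2.prim2 Nat.pair Primrec₂.natPair _ _
      (C2.var 2) (C2.var 3)))
  · simpa using h
  · exact Primrec.option_isSome.comp (Code.primrec_evaln.comp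
      (((pr_u2.comp pr_u2).pair ((Primrec.ofNat Code).comp pr_u1)).pair (pr_u1.comp pr_u2)))

theorem dd_v (h1 : S_UF) (hM : NPA M) {k n : ℕ} (hk : 1 ≤ k) (hn : 1 ≤ n) :
    DD (M := M) fun x ν => Tq (ν 0) (ν 2) (ν 3) ∧ Th n k (ν 2) x := by
  have C1 := prf_calc1 M hM
  exact C1.and (dd_tq hM) (C1.and (dd_q h1 hM hk hn th1 pr_u1) (C1.not
    (dd_q h1 hM hk hn th2 (pr_u1.comp pr_u2))))

/-- the relation whose tuples are picked -/
theorem exists_V (h1 : S_UF) (hM : NPA M) {k n : ℕ} (hk : 1 ≤ k) (hn : 1 ≤ n) :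
    ∃ V : (ℕ → M) → Prop, Dfn V ∧ (∀ v, V v → v 1 = v 2 + v 3) ∧
      ∀ (v : ℕ → M) (e s p w : ℕ), v 0 = (e : M) → v 1 = (s : M) → v 2 = (p : M) → v 3 = (w : M) →
        (V v ↔ s = p + w ∧ Tq e p w ∧ Th n k p fun i => v (4 + i)) := by
  obtain ⟨RV, hRV, h⟩ := dd_v h1 hM hk hn
  have hT := trm_ops hM.compat
  refine ⟨fun v => v 1 = v 2 + v 3 ∧
    RV fun i => v (if i % 2 = 0 then 4 + i / 2 else if i / 2 < 4 then i / 2 else 0),
    dfn_bool.2.2.1 _ _ (hT.2.2.2.2.1 _ _ (hT.1 1) (hT.2.2.1 _ _ (hT.1 2) (hT.1 3)))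
      (mix_dfn_proj hM.compat hRV _), fun v hv => hv.1, ?_⟩
  intro v e s p w e0 e1 e2 e3
  have e4 : (fun i => v (if i % 2 = 0 then 4 + i / 2 else if i / 2 < 4 then i / 2 else 0)) =
      mix (fun i => v (4 + i)) (fun i => if i = 0 then e else if i = 1 then s else
        if i = 2 then p else if i = 3 then w else e) := by
    funext i
    unfold mix
    by_cases h0 : i % 2 = 0
    · rw [if_pos h0, if_pos h0]
    · rw [if_neg h0, if_neg h0]
      generalize i / 2 = j
      by_cases j0 : j = 0
      · subst j0; simp [e0]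
      by_cases j1 : j = 1
      · subst j1; simp [e1]
      by_cases j2 : j = 2
      · subst j2; simp [e2]
      by_cases j3 : j = 3
      · subst j3; simp [e3]
      · rw [if_neg (by omega)]
        simp only [if_neg j0, if_neg j1, if_neg j2, if_neg j3, e0]
  beta_reduce
  rw [e4, h, e1, e2, e3]
  refine and_congr ⟨fun h => by exact_mod_cast h, fun h => by exact_mod_cast h⟩ ?_
  simp

/-- blocks of existential quantifiers -/
theorem hd_block (hH : HCal M) (N : ℕ) (R : (ℕ → M) → Prop) (hR : HD M true (N + 1) R) (m : ℕ) :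
    HD M true (N + 1) fun v => ∃ v', (∀ i, (i = 0 ∨ m < i) → v' i = v i) ∧ R v' := by
  induction m with
  | zero =>
    obtain ⟨φ, h1, h2⟩ := hR
    refine ⟨φ, h1, fun v => ?_⟩
    rw [h2]
    constructor
    · intro h
      exact ⟨v, fun _ _ => rfl, h⟩
    · rintro ⟨v', hv', h⟩
      have : v' = v := funext fun i => hv' i (Nat.eq_zero_or_pos i)
      rwa [this] at h
  | succ m ih =>
    obtain ⟨φ, h1, h2⟩ := hH.ex _ _ (m + 1) ih
    refine ⟨φ, h1, fun v => ?_⟩
    rw [h2]
    constructor
    · rintro ⟨y, v', hv', h⟩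
      refine ⟨v', fun i hi => ?_, h⟩
      rw [hv' i (by omega), Function.update_of_ne (by omega)]
    · rintro ⟨v', hv', h⟩
      refine ⟨v' (m + 1), v', fun i hi => ?_, h⟩
      by_cases h3 : i = m + 1
      · subst h3
        rw [Function.update_self]
      · rw [Function.update_of_ne h3, hv' i (by omega)]

theorem it_le (i m : ℕ) : (fun z : ℕ => z.unpair.2)^[i] m ≤ m := by
  induction i generalizing m with
  | zero => exact le_rfl
  | succ i ih =>
    rw [Function.iterate_succ_apply]
    exact (ih _).trans (Nat.unpair_right_le m)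

theorem tau_le (i p : ℕ) : W921.SF.tau i p ≤ p := by
  unfold W921.SF.tau
  exact (Nat.unpair_left_le _).trans ((it_le i _).trans ((Nat.unpair_right_le _).trans
    (Nat.unpair_right_le p)))

theorem pr_tau : Primrec fun m : ℕ => W921.SF.tau m.unpair.1 m.unpair.2 := by
  unfold W921.SF.tau
  refine pr_u1.comp (Primrec.nat_iterate pr_u1 (pr_u2.comp (pr_u2.comp pr_u2)) ?_)
  exact pr_u2.comp Primrec.snd

/-- `W921.SF.tau i p` and its components -/
theorem dd_comp (hM : NPA M) :
    DD (M := M) fun _ ν => W921.SF.tau (ν 0) (ν 1) = p4 (ν 2) (ν 3) (ν 4) (ν 5) := by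
  have C1 := prf_calc1 M hM
  have C2 := prf_calc2 M hM (prf_bt prf_ind) C1
  have h := C2.rel (fun m => W921.SF.tau m.unpair.1 m.unpair.2.unpair.1 = m.unpair.2.unpair.2)
    ⟨fun m => decide (W921.SF.tau m.unpair.1 m.unpair.2.unpair.1 = m.unpair.2.unpair.2), ?_, fun n => by
      simp⟩
    (fun ν => Nat.pair (ν 0) (Nat.pair (ν 1) (p4 (ν 2) (ν 3) (ν 4) (ν 5))))
    (C2.prim2 Nat.pair Primrec₂.natPair _ _ (C2.var 0) (C2.prim2 Nat.pair Primrec₂.natPair _ _
      (C2.var 1) (C2.prim2 Nat.pair Primrec₂.natPair _ _ (C2.var 2) (C2.prim2 Nat.pair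
        Primrec₂.natPair _ _ (C2.var 3) (C2.prim2 Nat.pair Primrec₂.natPair _ _ (C2.var 4)
          (C2.var 5))))))
  · simpa using h
  · have h3 : Primrec fun m : ℕ => W921.SF.tau m.unpair.1 m.unpair.2.unpair.1 := by
      have h4 := pr_tau.comp (Primrec₂.natPair.comp pr_u1 (pr_u1.comp pr_u2))
      simpa using h4
    exact (PrimrecRel.comp Primrec.eq h3 (pr_u2.comp pr_u2)).decide

end

/-- The task. -/
theorem taskKAP (h1 : S_UF) (h2 : S_PICK) (h3 : S_HCAL) : S_KAP := by
  intro M _ hPA hS n k hn hk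
  obtain ⟨i1, i2, i3, i4, hM⟩ := npa_of_satu M hPA hS
  have hc := hM.compat
  have hH := h3 M ⟨0⟩
  have hT := trm_ops hc
  obtain ⟨V, hV, hV1, hV2⟩ := exists_V h1 hM hk hn
  obtain ⟨R', hR', p1, p2, p3, p4'⟩ := h2 M hM V (3 + k) hV
  obtain ⟨RC, hRC, hRC'⟩ := dd_comp hM
  have hP1 : Dfn fun v : ℕ → M => R' (fun j => v (if j ≤ 3 + k then j else 0)) ∧
      (v (4 + k) ≤ v 2 ∧ v (5 + k) ≤ v 2 ∧ v (6 + k) ≤ v 2 ∧ v (7 + k) ≤ v 2) :=
    dfn_bool.2.2.1 _ _ (mix_dfn_proj hc hR' _) (dfn_bool.2.2.1 _ _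
      (hT.2.2.2.2.2.2 _ _ (hT.1 _) (hT.1 _)) (dfn_bool.2.2.1 _ _
        (hT.2.2.2.2.2.2 _ _ (hT.1 _) (hT.1 _)) (dfn_bool.2.2.1 _ _
          (hT.2.2.2.2.2.2 _ _ (hT.1 _) (hT.1 _)) (hT.2.2.2.2.2.2 _ _ (hT.1 _) (hT.1 _)))))
  obtain ⟨N1, hN1⟩ := hH.any _ hP1
  obtain ⟨N2, hN2⟩ := hH.any _ hRC
  refine ⟨max N1 N2 + 1, fun N hN => ?_⟩
  obtain ⟨φ, hφ, hφ'⟩ := h1 M hM k N hk (by omega)
  have hA : HD M true N fun v => φ.Realize fun i => v (if i < 4 then 4 + k + i else i) :=
    hH.sub true N (fun v => φ.Realize v) (fun i => Term.var (if i < 4 then 4 + k + i else i))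
      ⟨φ, hφ, fun _ => Iff.rfl⟩
  have hB : ∀ i : ℕ, HD M true N fun v => RC fun j => (if j = 1 then (i : M) else
      if j = 3 then v 2 else if j = 5 then v (4 + k) else if j = 7 then v (5 + k) else
        if j = 9 then v (6 + k) else if j = 11 then v (7 + k) else v 0) := by
    intro i
    have h4 := hH.sub true N RC (fun j => if j = 1 then num i else Term.var (
      if j = 3 then 2 else if j = 5 then (4 + k) else if j = 7 then (5 + k) else
        if j = 9 then (6 + k) else if j = 11 then (7 + k) else 0)) (hN2 N (by omega) true)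
    obtain ⟨ψ, h5, h6⟩ := h4
    refine ⟨ψ, h5, fun v => (h6 v).trans ?_⟩
    have e : (fun j : ℕ => ((if j = 1 then num i else Term.var (
      if j = 3 then 2 else if j = 5 then (4 + k) else if j = 7 then (5 + k) else
        if j = 9 then (6 + k) else if j = 11 then (7 + k) else 0)) : LA.Term ℕ).realize v) =
      fun j => (if j = 1 then (i : M) else
      if j = 3 then v 2 else if j = 5 then v (4 + k) else if j = 7 then v (5 + k) else
        if j = 9 then v (6 + k) else if j = 11 then v (7 + k) else v 0) := by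
      funext j
      by_cases j1 : j = 1
      · rw [if_pos j1, if_pos j1, npa_num hc]
      · rw [if_neg j1, if_neg j1]
        show v _ = _
        split_ifs <;> rfl
    beta_reduce
    rw [e]
  obtain ⟨N', rfl⟩ : ∃ N', N = N' + 1 := ⟨N - 1, by omega⟩
  have hG := fun i => hd_block hH N' _ (hH.and _ _ _ (hN1 (N' + 1) (by omega) true)
    (hH.and _ _ _ (hB i) hA)) (7 + k)
  choose K hK hK' using hG
  refine ⟨K, hK, fun e he => ?_⟩
  obtain ⟨p0, hp0, x0, hx0⟩ := he
  obtain ⟨w0, hw0⟩ := (W_iff e p0).1 hp0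
  have hloc : ∀ (p : ℕ) (x y : ℕ → M), (∀ i < k, x i = y i) → (Th n k p x ↔ Th n k p y) := by
    intro p x y hxy
    have e : tr k x = tr k y := by
      funext i
      unfold tr
      split_ifs with hi
      · exact hxy i hi
      · exact hxy 0 (by omega)
    unfold Th
    rw [e]
  -- the tuple which exists
  let v0 : ℕ → M := fun j => if j = 0 then (e : M) else if j = 1 then ((p0 + w0 : ℕ) : M) else
    if j = 2 then (p0 : M) else if j = 3 then (w0 : M) else if j < 4 + k then x0 (j - 4) else (e : M)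
  have hv0 : V v0 := by
    rw [hV2 v0 e (p0 + w0) p0 w0 rfl rfl rfl rfl]
    refine ⟨rfl, hw0, (hloc p0 _ x0 fun i hi => ?_).2 hx0⟩
    show v0 (4 + i) = _
    simp only [v0]
    rw [if_neg (by omega), if_neg (by omega), if_neg (by omega), if_neg (by omega),
      if_pos (by omega)]
    congr 1
    omega
  obtain ⟨v1, hv1, hv1'⟩ := p3 v0 hv0
  have hm := p4' (by omega) v0 v1 hv0 hv1 hv1'
  have hv1V := p1 v1 hv1
  have hsum := hV1 v1 hv1V
  have e0 : v1 0 = (e : M) := by rw [hv1' 0 (Or.inl rfl)]; rfl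
  have e9 : ∀ j, 3 + k < j → v1 j = (e : M) := by
    intro j hj
    rw [hv1' j (Or.inr hj)]
    simp only [v0]
    rw [if_neg (by omega), if_neg (by omega), if_neg (by omega), if_neg (by omega),
      if_neg (by omega)]
  obtain ⟨s1, -, e1⟩ := std_below hc (p0 + w0) (v1 1) (hm.trans (le_of_eq rfl))
  obtain ⟨q, -, e2⟩ := std_below hc s1 (v1 2) (by rw [← e1, hsum]; exact le_self_add)
  obtain ⟨w1, -, e3⟩ := std_below hc s1 (v1 3) (by rw [← e1, hsum]; exact le_add_self)
  obtain ⟨-, hTq, hTh⟩ := (hV2 v1 e s1 q w1 e0 e1 e2 e3).1 hv1V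
  refine ⟨q, fun i => v1 (4 + i), (W_iff e q).2 ⟨w1, hTq⟩, hTh, fun i => ?_⟩
  have hnv : nv M e = (e : M) := by
    unfold nv
    rw [npa_num hc]
  rw [hK', hnv]
  -- the key equivalence
  have key : ∀ (v : ℕ → M) (a c L B : ℕ), (∀ j ≤ 3 + k, v j = v1 j) → v (4 + k) = (a : M) →
      v (5 + k) = (c : M) → v (6 + k) = (L : M) → v (7 + k) = (B : M) →
      (RC (fun j => (if j = 1 then (i : M) else
        if j = 3 then v 2 else if j = 5 then v (4 + k) else if j = 7 then v (5 + k) else
        if j = 9 then v (6 + k) else if j = 11 then v (7 + k) else v 0)) ↔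
          W921.SF.tau i q = p4 a c L B) ∧
      ((φ.Realize fun i => v (if i < 4 then 4 + k + i else i)) ↔
        Q (N' + 1) (p4 a c L B) (tr k fun i => v1 (4 + i))) := by
    intro v a c L B h4 h5 h6 h7 h8
    constructor
    · have e5 : (fun j => (if j = 1 then (i : M) else
        if j = 3 then v 2 else if j = 5 then v (4 + k) else if j = 7 then v (5 + k) else
        if j = 9 then v (6 + k) else if j = 11 then v (7 + k) else v 0)) =
          mix (fun _ => (e : M)) (fun j => if j = 0 then i else if j = 1 then q else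
            if j = 2 then a else if j = 3 then c else if j = 4 then L else if j = 5 then B
              else e) := by
        funext j
        have h20 : v 2 = (q : M) := by rw [h4 2 (by omega), e2]
        have h00 : v 0 = (e : M) := by rw [h4 0 (by omega), e0]
        rw [h20, h5, h6, h7, h8, h00]
        unfold mix
        by_cases hj : j % 2 = 0
        · rw [if_pos hj, if_neg (by omega), if_neg (by omega), if_neg (by omega),
            if_neg (by omega), if_neg (by omega), if_neg (by omega)]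
        · rw [if_neg hj]
          obtain ⟨m, rfl⟩ : ∃ m, j = 2 * m + 1 := ⟨j / 2, by omega⟩
          have hm2 : (2 * m + 1) / 2 = m := by omega
          rw [hm2]
          by_cases m0 : m = 0
          · subst m0; simp
          by_cases m1 : m = 1
          · subst m1; simp
          by_cases m2 : m = 2
          · subst m2; simp
          by_cases m3 : m = 3
          · subst m3; simp
          by_cases m4 : m = 4
          · subst m4; simp
          by_cases m5 : m = 5
          · subst m5; simp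
          · rw [if_neg (by omega), if_neg (by omega), if_neg (by omega), if_neg (by omega),
              if_neg (by omega), if_neg (by omega)]
            simp only [if_neg m0, if_neg m1, if_neg m2, if_neg m3, if_neg m4, if_neg m5]
      rw [e5, hRC']
      simp
    · rw [hφ' a c L B]
      · have e6 : (tr k fun i => v (if 4 + i < 4 then 4 + k + (4 + i) else 4 + i)) =
            tr k fun i => v1 (4 + i) := by
          funext j
          unfold tr
          by_cases hj : j < k
          · rw [if_pos hj, if_pos hj]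
            beta_reduce
            rw [if_neg (by omega)]
            exact h4 _ (by omega)
          · rw [if_neg hj, if_neg hj]
            beta_reduce
            rw [if_neg (by omega)]
            exact h4 _ (by omega)
        rw [e6]
      · exact h5
      · show v (if 1 < 4 then 4 + k + 1 else 1) = _
        rw [if_pos (by omega), ← h6]
        congr 1
        omega
      · show v (if 2 < 4 then 4 + k + 2 else 2) = _
        rw [if_pos (by omega), ← h7]
        congr 1
        omega
      · show v (if 3 < 4 then 4 + k + 3 else 3) = _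
        rw [if_pos (by omega), ← h8]
        congr 1
        omega
  constructor
  · rintro ⟨v, hv, ⟨hr, hb1, hb2, hb3, hb4⟩, hrc, hu⟩
    have h4 : (fun j => v (if j ≤ 3 + k then j else 0)) = v1 := by
      refine p2 _ _ hr hv1 fun j hj => ?_
      rcases hj with rfl | hj
      · show v (if 0 ≤ 3 + k then 0 else 0) = _
        rw [ite_self, hv 0 (Or.inl rfl), e0]
      · show v (if j ≤ 3 + k then j else 0) = _
        rw [if_neg (by omega), hv 0 (Or.inl rfl), e9 j hj]
    have h5 : ∀ j ≤ 3 + k, v j = v1 j := by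
      intro j hj
      rw [← h4]
      show _ = v (if j ≤ 3 + k then j else 0)
      rw [if_pos hj]
    rw [h5 2 (by omega), e2] at hb1 hb2 hb3 hb4
    obtain ⟨a, -, ea⟩ := std_below hc q _ hb1
    obtain ⟨c, -, ec⟩ := std_below hc q _ hb2
    obtain ⟨L, -, eL⟩ := std_below hc q _ hb3
    obtain ⟨B, -, eB⟩ := std_below hc q _ hb4
    obtain ⟨k1, k2⟩ := key v a c L B h5 ea ec eL eB
    rw [k1.1 hrc]
    exact k2.1 hu
  · intro h
    have hq := tau_le i q
    have hp := p4_eta (W921.SF.tau i q)
    have b1 := Nat.unpair_left_le (W921.SF.tau i q)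
    have b2 := Nat.unpair_right_le (W921.SF.tau i q)
    have b3 := Nat.unpair_left_le (W921.SF.tau i q).unpair.2
    have b4 := Nat.unpair_right_le (W921.SF.tau i q).unpair.2
    have b5 := Nat.unpair_left_le (W921.SF.tau i q).unpair.2.unpair.2
    have b6 := Nat.unpair_right_le (W921.SF.tau i q).unpair.2.unpair.2
    generalize (W921.SF.tau i q).unpair.1 = a at *
    generalize (W921.SF.tau i q).unpair.2.unpair.1 = c at *
    generalize (W921.SF.tau i q).unpair.2.unpair.2.unpair.1 = L at *
    generalize (W921.SF.tau i q).unpair.2.unpair.2.unpair.2 = B at *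
    have h5 : ∀ j ≤ 3 + k, (fun j => if j ≤ 3 + k then v1 j else if j = 4 + k then (a : M) else
        if j = 5 + k then (c : M) else if j = 6 + k then (L : M) else if j = 7 + k then (B : M)
          else (e : M)) j = v1 j := fun j hj => if_pos hj
    have f1 : (fun j => if j ≤ 3 + k then v1 j else if j = 4 + k then (a : M) else
        if j = 5 + k then (c : M) else if j = 6 + k then (L : M) else if j = 7 + k then (B : M)
          else (e : M)) (4 + k) = (a : M) := by
      beta_reduce
      rw [if_neg (by omega), if_pos rfl]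
    have f2 : (fun j => if j ≤ 3 + k then v1 j else if j = 4 + k then (a : M) else
        if j = 5 + k then (c : M) else if j = 6 + k then (L : M) else if j = 7 + k then (B : M)
          else (e : M)) (5 + k) = (c : M) := by
      beta_reduce
      rw [if_neg (by omega), if_neg (by omega), if_pos rfl]
    have f3 : (fun j => if j ≤ 3 + k then v1 j else if j = 4 + k then (a : M) else
        if j = 5 + k then (c : M) else if j = 6 + k then (L : M) else if j = 7 + k then (B : M)
          else (e : M)) (6 + k) = (L : M) := by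
      beta_reduce
      rw [if_neg (by omega), if_neg (by omega), if_neg (by omega), if_pos rfl]
    have f4 : (fun j => if j ≤ 3 + k then v1 j else if j = 4 + k then (a : M) else
        if j = 5 + k then (c : M) else if j = 6 + k then (L : M) else if j = 7 + k then (B : M)
          else (e : M)) (7 + k) = (B : M) := by
      beta_reduce
      rw [if_neg (by omega), if_neg (by omega), if_neg (by omega), if_neg (by omega), if_pos rfl]
    have f5 : ∀ i, (i = 0 ∨ 7 + k < i) → (fun j => if j ≤ 3 + k then v1 j else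
        if j = 4 + k then (a : M) else if j = 5 + k then (c : M) else if j = 6 + k then (L : M)
          else if j = 7 + k then (B : M) else (e : M)) i = (e : M) := by
      rintro i (rfl | hi)
      · beta_reduce
        rw [if_pos (by omega), e0]
      · beta_reduce
        rw [if_neg (by omega), if_neg (by omega), if_neg (by omega), if_neg (by omega),
          if_neg (by omega)]
    generalize (fun j => if j ≤ 3 + k then v1 j else if j = 4 + k then (a : M) else
        if j = 5 + k then (c : M) else if j = 6 + k then (L : M) else if j = 7 + k then (B : M)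
          else (e : M)) = v at *
    obtain ⟨k1, k2⟩ := key v a c L B h5 f1 f2 f3 f4
    refine ⟨v, f5, ⟨?_, ?_⟩, k1.2 hp.symm, k2.2 (by rw [hp]; exact h)⟩
    · have h4 : (fun j => v (if j ≤ 3 + k then j else 0)) = v1 := by
        funext j
        split_ifs with hj
        · exact h5 j hj
        · rw [h5 0 (by omega), e0, e9 j (by omega)]
      rw [h4]
      exact hv1
    · rw [h5 2 (by omega), e2, f1, f2, f3, f4]
      refine ⟨?_, ?_, ?_, ?_⟩ <;> rw [Nat.cast_le] <;> omega

end Pool.Agent.W894.SG
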