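import Pool.Agent.W921.SF.Stm
import Pool.Agent.H623R3.JC.P_BT
import Pool.Agent.H623R3.JC.P_IND
import Pool.Agent.H623R3.JC.P_CALC1
import Pool.Agent.H623R3.JC.P_CALC2

/-!
The universal formulas for the block normal forms.
-/

set_option autoImplicit false

open FirstOrder FirstOrder.Language Pool.Agent.Helper227.EN

namespace Pool.Agent.W894.SG

open Pool.Agent.W921.SF Pool.Agent.H623R3.JC

theorem nest_congr {M : Type} [CommSemiring M] [LinearOrder M] {k j : ℕ} (hk : 1 ≤ k)
    {v w : ℕ → M} (h : ∀ i < 4 + k + 2 * j, v i = w i) : nest k v j = nest k w j := by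
  induction j with
  | zero =>
    funext i
    simp only [nest, tr]
    split_ifs with hi
    · exact h _ (by omega)
    · exact h _ (by omega)
  | succ j ih =>
    simp only [nest]
    rw [ih fun i hi => h i (by omega), h (4 + k + 2 * j) (by omega),
      h (4 + k + 2 * j + 1) (by omega)]

theorem uf_main (h1 : S_UF0) (h2 : S_QF) (h3 : S_HCAL) (M : Type) [CommSemiring M] [LinearOrder M]
    [IsStrictOrderedRing M] [CanonicallyOrderedAdd M] [LA.Structure M] (hM : NPA M) (k : ℕ)
    (hk : 1 ≤ k) (m : ℕ) : ∀ j : ℕ, ∃ R : (ℕ → M) → Prop, HD M true m R ∧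
      ∀ (a c L B : ℕ) (v : ℕ → M), v 0 = (a : M) → v 1 = (c : M) → v 2 = (L : M) → v 3 = (B : M) →
        (R v ↔ Q m (p4 a c L B) (nest k v j)) := by
  have hH := h3 M ⟨0⟩
  have hC := prf_calc2 M hM (prf_bt prf_ind) (prf_calc1 M hM)
  induction m with
  | zero =>
    intro j
    obtain ⟨φ, hφ, h⟩ := h1 M hM k j hk
    exact ⟨fun v => φ.Realize v, ⟨φ, Hier.d0 hφ, fun _ => Iff.rfl⟩, h⟩
  | succ m ih =>
    intro j
    obtain ⟨R, hR, h⟩ := ih (j + 1)
    obtain ⟨ψ, hψ, hψ'⟩ := hH.not _ _ _ hR
    have h4 : HD M true (m + 1) fun v => ¬ R v := ⟨ψ, Hier.up hψ, hψ'⟩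
    have h5 := hH.ex _ _ (4 + k + 2 * j) (hH.ex _ _ (4 + k + 2 * j + 1) h4)
    refine ⟨_, h5, fun a c L B v e0 e1 e2 e3 => ?_⟩
    have key : ∀ α γ : M, (R (Function.update (Function.update v (4 + k + 2 * j) α)
        (4 + k + 2 * j + 1) γ) ↔ Q m (p4 a c L B) (mrg (nest k v j) (bs α γ))) := by
      intro α γ
      rw [h a c L B _ _ _ _ _]
      · simp only [nest]
        rw [nest_congr (k := k) (j := j) hk (v := Function.update (Function.update v
          (4 + k + 2 * j) α) (4 + k + 2 * j + 1) γ) (w := v)]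
        · rw [Function.update_self, Function.update_of_ne (by omega), Function.update_self]
        · intro i hi
          rw [Function.update_of_ne (by omega), Function.update_of_ne (by omega)]
      · rw [Function.update_of_ne (by omega), Function.update_of_ne (by omega), e0]
      · rw [Function.update_of_ne (by omega), Function.update_of_ne (by omega), e1]
      · rw [Function.update_of_ne (by omega), Function.update_of_ne (by omega), e2]
      · rw [Function.update_of_ne (by omega), Function.update_of_ne (by omega), e3]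
    simp only [key, Q]
    constructor
    · rintro ⟨α, γ, h6⟩
      exact ⟨_, h6⟩
    · rintro ⟨y, hy⟩
      obtain ⟨S, hS⟩ := (h2 m (p4 a c L B)).1
      obtain ⟨α, γ, hc⟩ := hC.code S y
      refine ⟨α, γ, fun h6 => hy ?_⟩
      rw [hS M (mrg (nest k v j) y) (mrg (nest k v j) (bs α γ))]
      · exact h6
      · intro i hi
        unfold mrg
        split_ifs with h7
        · rfl
        · exact (hc (i / 2) (by omega)).symm

/-- The task: the universal formula for the block normal forms. -/
theorem taskUF (h1 : S_UF0) (h2 : S_QF) (h3 : S_HCAL) : S_UF := by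
  intro M _ _ _ _ _ hM k N hk hN
  obtain ⟨R, ⟨φ, hφ, h4⟩, h5⟩ := uf_main h1 h2 h3 M hM k hk N 0
  refine ⟨φ, hφ, fun a c L B v e0 e1 e2 e3 => ?_⟩
  rw [h4, h5 a c L B v e0 e1 e2 e3]
  rfl

end Pool.Agent.W894.SG
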