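import Pool.Agent.W894.SG.D0C
import Pool.Agent.Helper227.ENJ.P_beta_unique
import Pool.Agent.H623R3.JC.P_COMPR
import Pool.Agent.H623R3.JC.P_BT
import Pool.Agent.H623R3.JC.P_IND

/-!
The disjunctive normal forms are bounded in terms of codes of sequences.
-/

set_option autoImplicit false
set_option linter.unusedSectionVars false

open FirstOrder FirstOrder.Language Pool.Agent.Helper227.EN

namespace Pool.Agent.W894.SG

open Pool.Agent.W921.SF Pool.Agent.H623R3.JC

section

variable {M : Type} [CommSemiring M] [LinearOrder M] [IsStrictOrderedRing M]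
  [CanonicallyOrderedAdd M] [LA.Structure M] {n : ℕ}

theorem lt_succ_iff (hc : Compat M) {x y : M} : x < y + 1 ↔ x ≤ y := by
  constructor
  · intro h
    by_contra hcon
    rw [not_le] at hcon
    obtain ⟨d, rfl⟩ := exists_add_of_le hcon.le
    have hd : ¬ d < 1 := by
      intro hd
      rw [hc.disc d hd, add_zero] at hcon
      exact lt_irrefl _ hcon
    rw [not_lt] at hd
    exact absurd h (not_lt.2 (add_le_add_right hd y))
  · intro h
    exact lt_of_le_of_lt h (lt_add_of_pos_right _ zero_lt_one)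

/-- the entry number `q` of `nest k v j` is `w`, as a relation -/
def Vl (k : ℕ) (v : ℕ → M) : ℕ → M → M → Prop
  | 0, q, w => (∃ i < k, q = (i : M) ∧ w = v (4 + i)) ∨ ((k : M) ≤ q ∧ w = v 4)
  | j + 1, q, w => ∃ r < q + 1, (q = 2 * r ∧ Vl k v j r w) ∨
      (q = 2 * r + 1 ∧ (w < 1 + (r + 1) * v (4 + k + 2 * j + 1) ∧
        ∃ s < v (4 + k + 2 * j) + 1,
          v (4 + k + 2 * j) = s * (1 + (r + 1) * v (4 + k + 2 * j + 1)) + w))

theorem DP.Vl (hc : Compat M) (k j : ℕ) : ∀ {n : ℕ} {q w : (ℕ → M) → (Fin n → M) → M},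
    TE n q → TE n w → DP n fun v xs => SG.Vl k v j (q v xs) (w v xs) := by
  induction j with
  | zero =>
    intro n q w hq hw
    refine DP.or (DP.any fun i _ => DP.and (DP.eq hq (TE.nat hc i)) (DP.eq hw (TE.var _)))
      (DP.and (DP.le hc (TE.nat hc k) hq) (DP.eq hw (TE.var 4)))
  | succ j ih =>
    intro n q w hq hw
    refine DP.bex hc (hq.add hc (TE.one hc)) (R := fun v xs r => (q v xs = 2 * r ∧
      SG.Vl k v j r (w v xs)) ∨ (q v xs = 2 * r + 1 ∧ (w v xs < 1 + (r + 1) *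
        v (4 + k + 2 * j + 1) ∧ ∃ s < v (4 + k + 2 * j) + 1, v (4 + k + 2 * j) =
          s * (1 + (r + 1) * v (4 + k + 2 * j + 1)) + w v xs))) ?_
    have hr : TE (n + 1) fun (_ : ℕ → M) xs => xs (Fin.last n) := TE.bv _
    have h2 : ∀ {m : ℕ}, TE m fun (_ : ℕ → M) (_ : Fin m → M) => (2 : M) := by
      intro m
      simpa using TE.nat (M := M) (n := m) hc 2
    refine DP.or (DP.and (DP.eq hq.lift (h2.mul hc hr)) (ih hr hw.lift)) (DP.and
      (DP.eq hq.lift ((h2.mul hc hr).add hc (TE.one hc))) (DP.and (DP.lt hc hw.lift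
        ((TE.one hc).add hc ((hr.add hc (TE.one hc)).mul hc (TE.var _)))) ?_))
    refine DP.bex hc ((TE.var _).add hc (TE.one hc)) (R := fun v xs s => v (4 + k + 2 * j) =
          s * (1 + (xs (Fin.last n) + 1) * v (4 + k + 2 * j + 1)) + w v (Fin.init xs)) ?_
    exact DP.eq (TE.var _) (((TE.bv _).mul hc ((TE.one hc).add hc
      ((hr.lift.add hc (TE.one hc)).mul hc (TE.var _)))).add hc hw.lift.lift)

theorem Vl_iff (hM : NPA M) (k : ℕ) (v : ℕ → M) (j : ℕ) : ∀ (q : ℕ) (w : M),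
    Vl k v j (q : M) w ↔ w = nest k v j q := by
  have hbt := prf_bt prf_ind
  induction j with
  | zero =>
    intro q w
    simp only [Vl, nest, tr]
    split_ifs with h
    · constructor
      · rintro (⟨i, hi, h1, h2⟩ | ⟨h1, h2⟩)
        · rw [Nat.cast_inj] at h1
          rw [h2, h1]
        · rw [Nat.cast_le] at h1
          omega
      · intro h1
        exact Or.inl ⟨q, h, rfl, h1⟩
    · constructor
      · rintro (⟨i, hi, h1, h2⟩ | ⟨h1, h2⟩)
        · rw [Nat.cast_inj] at h1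
          omega
        · exact h2
      · intro h1
        exact Or.inr ⟨Nat.cast_le.2 (by omega), h1⟩
  | succ j ih =>
    intro q w
    have key : ∀ r : ℕ, (w < 1 + ((r : M) + 1) * v (4 + k + 2 * j + 1) ∧
        ∃ s < v (4 + k + 2 * j) + 1,
          v (4 + k + 2 * j) = s * (1 + ((r : M) + 1) * v (4 + k + 2 * j + 1)) + w) ↔
        w = bs (v (4 + k + 2 * j)) (v (4 + k + 2 * j + 1)) r := by
      intro r
      unfold bs
      rw [← hbt M hM]
      unfold Beta
      refine and_congr Iff.rfl ⟨?_, ?_⟩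
      · rintro ⟨s, -, hs⟩
        exact ⟨s, hs⟩
      · rintro ⟨s, hs⟩
        refine ⟨s, ?_, hs⟩
        rw [lt_succ_iff hM.compat]
        conv_rhs => rw [hs]
        have h1 : (1 : M) ≤ 1 + ((r : M) + 1) * v (4 + k + 2 * j + 1) := le_self_add
        calc s = s * 1 := (mul_one s).symm
          _ ≤ s * (1 + ((r : M) + 1) * v (4 + k + 2 * j + 1)) := mul_le_mul_right h1 s
          _ ≤ _ := le_self_add
    have hst : ∀ r : M, (∃ m : ℕ, (m : M) = 2 * r ∧ m = q) → r = ((q / 2 : ℕ) : M) ∧ q % 2 = 0 := by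
      rintro r ⟨m, h1, rfl⟩
      obtain ⟨r', -, rfl⟩ := std_below hM.compat m r (by
        rw [h1]
        calc r = 1 * r := (one_mul r).symm
          _ ≤ 2 * r := mul_le_mul_left one_le_two r)
      have h2 : m = 2 * r' := by exact_mod_cast h1
      have h3 : m / 2 = r' := by omega
      exact ⟨by rw [h3], by omega⟩
    have hst' : ∀ r : M, (∃ m : ℕ, (m : M) = 2 * r + 1 ∧ m = q) →
        r = ((q / 2 : ℕ) : M) ∧ q % 2 = 1 := by
      rintro r ⟨m, h1, rfl⟩
      obtain ⟨r', -, rfl⟩ := std_below hM.compat m r (by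
        rw [h1]
        calc r = 1 * r := (one_mul r).symm
          _ ≤ 2 * r := mul_le_mul_left one_le_two r
          _ ≤ 2 * r + 1 := le_self_add)
      have h2 : m = 2 * r' + 1 := by exact_mod_cast h1
      have h3 : m / 2 = r' := by omega
      exact ⟨by rw [h3], by omega⟩
    simp only [Vl, nest, mrg]
    constructor
    · rintro ⟨r, -, ⟨h1, h2⟩ | ⟨h1, h2⟩⟩
      · obtain ⟨h3, h4⟩ := hst r ⟨q, h1, rfl⟩
        rw [if_pos h4]
        rw [h3, ih] at h2
        exact h2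
      · obtain ⟨h3, h4⟩ := hst' r ⟨q, h1, rfl⟩
        rw [if_neg (by omega)]
        rw [h3, key] at h2
        exact h2
    · intro h
      refine ⟨((q / 2 : ℕ) : M), ?_, ?_⟩
      · rw [lt_succ_iff hM.compat, Nat.cast_le]
        omega
      · rcases Nat.mod_two_eq_zero_or_one q with h1 | h1
        · rw [if_pos h1] at h
          refine Or.inl ⟨?_, (ih _ _).2 h⟩
          have h2 : q = 2 * (q / 2) := by omega
          exact_mod_cast h2
        · rw [if_neg (by omega)] at h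
          refine Or.inr ⟨?_, (key _).2 h⟩
          have h2 : q = 2 * (q / 2) + 1 := by omega
          exact_mod_cast h2

/-- a bound for the values -/
def Tb (k j : ℕ) (v : ℕ → M) : M := ∑ i ∈ Finset.range (k + 2 * j + 1), v (4 + i)

theorem TE.Tb (hc : Compat M) (k j : ℕ) : TE n fun (v : ℕ → M) _ => SG.Tb k j v :=
  TE.sum hc _ fun _ _ => TE.var _

theorem le_Tb {k j i : ℕ} (v : ℕ → M) (h : i < k + 2 * j + 1) : v (4 + i) ≤ Tb k j v := by
  unfold Tb
  rw [← Finset.add_sum_erase _ _ (Finset.mem_range.2 h)]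
  exact le_self_add

theorem Vl_le (k : ℕ) (v : ℕ → M) (j : ℕ) : ∀ (q w : M), Vl k v j q w → w ≤ Tb k j v := by
  induction j with
  | zero =>
    rintro q w (⟨i, hi, -, rfl⟩ | ⟨-, rfl⟩)
    · exact le_Tb v (by omega)
    · exact le_Tb (i := 0) v (by omega)
  | succ j ih =>
    rintro q w ⟨r, -, ⟨-, h⟩ | ⟨-, -, s, -, h⟩⟩
    · refine (ih _ _ h).trans ?_
      unfold Tb
      exact Finset.sum_le_sum_of_subset (Finset.range_subset_range.2 (by omega))
    · have h1 : w ≤ v (4 + (k + 2 * j)) := by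
        have e : 4 + (k + 2 * j) = 4 + k + 2 * j := by omega
        rw [e, h]
        exact le_add_self
      exact h1.trans (le_Tb v (by omega))

/-- `z = ⟨x, y⟩` -/
def Pr (x y z : M) : Prop := (x < y ∧ z = y * y + x) ∨ (y ≤ x ∧ z = x * x + x + y)

theorem DP.Pr (hc : Compat M) {f g h : (ℕ → M) → (Fin n → M) → M} (hf : TE n f) (hg : TE n g)
    (hh : TE n h) : DP n fun v xs => SG.Pr (f v xs) (g v xs) (h v xs) :=
  DP.or (DP.and (DP.lt hc hf hg) (DP.eq hh ((hg.mul hc hg).add hc hf)))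
    (DP.and (DP.le hc hg hf) (DP.eq hh (((hf.mul hc hf).add hc hf).add hc hg)))

theorem Pr_nat (x y z : ℕ) : Pr (x : M) (y : M) (z : M) ↔ z = Nat.pair x y := by
  unfold Pr Nat.pair
  rw [Nat.cast_lt, Nat.cast_le]
  have e1 : ((z : M) = (y : M) * y + x) ↔ z = y * y + x := by
    constructor
    · intro h; exact_mod_cast h
    · rintro rfl; push_cast; rfl
  have e2 : ((z : M) = (x : M) * x + x + y) ↔ z = x * x + x + y := by
    constructor
    · intro h; exact_mod_cast h
    · rintro rfl; push_cast; rfl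
  rw [e1, e2]
  split_ifs with h
  · constructor
    · rintro (⟨-, h1⟩ | ⟨h1, -⟩)
      · exact h1
      · omega
    · intro h1
      exact Or.inl ⟨h, h1⟩
  · constructor
    · rintro (⟨h1, -⟩ | ⟨-, h1⟩)
      · omega
      · exact h1
    · intro h1
      exact Or.inr ⟨by omega, h1⟩

/-- the number `d` is a pair `⟨a, b⟩` with `R a b` -/
def EP (d : M) (R : M → M → Prop) : Prop := ∃ a < d + 1, ∃ b < d + 1, Pr a b d ∧ R a b

theorem DP.EP (hc : Compat M) {d : (ℕ → M) → (Fin n → M) → M} (hd : TE n d)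
    {R : (ℕ → M) → (Fin n → M) → M → M → Prop}
    (h : DP (n + 2) fun v xs => R v (Fin.init (Fin.init xs)) (Fin.init (α := fun _ => M) xs (Fin.last n))
      (xs (Fin.last (n + 1)))) :
    DP n fun v xs => SG.EP (d v xs) (R v xs) := by
  refine DP.bex hc (hd.add hc (TE.one hc)) (R := fun v xs a => ∃ b < d v xs + 1,
    SG.Pr a b (d v xs) ∧ R v xs a b) ?_
  refine DP.bex hc (hd.lift.add hc (TE.one hc)) (R := fun v xs b =>
    SG.Pr (xs (Fin.last n)) b (d v (Fin.init xs)) ∧ R v (Fin.init xs) (xs (Fin.last n)) b) ?_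
  exact DP.and (DP.Pr hc (TE.bv (Fin.last n)).lift (TE.bv _) hd.lift.lift) h

theorem EP_nat (hc : Compat M) (d : ℕ) (R : M → M → Prop) :
    EP (d : M) R ↔ R (d.unpair.1 : M) (d.unpair.2 : M) := by
  constructor
  · rintro ⟨a, ha, b, hb, h1, h2⟩
    rw [lt_succ_iff hc] at ha hb
    obtain ⟨a', -, rfl⟩ := std_below hc d a ha
    obtain ⟨b', -, rfl⟩ := std_below hc d b hb
    rw [Pr_nat] at h1
    rw [h1, Nat.unpair_pair]
    exact h2
  · intro h
    refine ⟨d.unpair.1, ?_, d.unpair.2, ?_, ?_, h⟩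
    · rw [lt_succ_iff hc, Nat.cast_le]
      exact Nat.unpair_left_le d
    · rw [lt_succ_iff hc, Nat.cast_le]
      exact Nat.unpair_right_le d
    · rw [Pr_nat, Nat.pair_unpair]

/-- the matrix of the atomic facts -/
def Mt (t x y z : M) : Prop :=
  (t = 0 ∧ x + y = z) ∨ (t = 1 ∧ x * y = z) ∨ (t = 2 ∧ x < y) ∨ (t = 3 ∧ 0 = x) ∨
    (t = 4 ∧ 1 = x)

theorem TE.ofNat' (hc : Compat M) (k : ℕ) [k.AtLeastTwo] :
    TE n fun (_ : ℕ → M) _ => (OfNat.ofNat k : M) := by
  have h := TE.nat (M := M) (n := n) hc (OfNat.ofNat k)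
  simpa using h

theorem DP.Mt (hc : Compat M) {t x y z : (ℕ → M) → (Fin n → M) → M} (ht : TE n t) (hx : TE n x)
    (hy : TE n y) (hz : TE n z) :
    DP n fun v xs => SG.Mt (t v xs) (x v xs) (y v xs) (z v xs) :=
  ((DP.eq ht (TE.zero hc)).and (DP.eq (hx.add hc hy) hz)).or
    (((DP.eq ht (TE.one hc)).and (DP.eq (hx.mul hc hy) hz)).or
      (((DP.eq ht (TE.ofNat' hc 2)).and (DP.lt hc hx hy)).or
        (((DP.eq ht (TE.ofNat' hc 3)).and (DP.eq (TE.zero hc) hx)).or
          ((DP.eq ht (TE.ofNat' hc 4)).and (DP.eq (TE.one hc) hx)))))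

/-- the atomic fact of type `t` about the entries number `a, b, c` -/
def Va (k j : ℕ) (v : ℕ → M) (t a b c : M) : Prop :=
  ∃ x < Tb k j v + 1, ∃ y < Tb k j v + 1, ∃ z < Tb k j v + 1,
    (Vl k v j a x ∧ Vl k v j b y ∧ Vl k v j c z) ∧ Mt t x y z

theorem DP.Va (hc : Compat M) (k j : ℕ) {t a b c : (ℕ → M) → (Fin n → M) → M} (ht : TE n t)
    (ha : TE n a) (hb : TE n b) (hC : TE n c) :
    DP n fun v xs => SG.Va k j v (t v xs) (a v xs) (b v xs) (c v xs) := by
  refine DP.bex hc ((TE.Tb hc k j).add hc (TE.one hc)) (R := fun v xs x =>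
    ∃ y < SG.Tb k j v + 1, ∃ z < SG.Tb k j v + 1,
      (SG.Vl k v j (a v xs) x ∧ SG.Vl k v j (b v xs) y ∧ SG.Vl k v j (c v xs) z) ∧
        SG.Mt (t v xs) x y z) ?_
  refine DP.bex hc ((TE.Tb hc k j).add hc (TE.one hc)) (R := fun v xs y =>
    ∃ z < SG.Tb k j v + 1, (SG.Vl k v j (a v (Fin.init xs)) (xs (Fin.last n)) ∧
      SG.Vl k v j (b v (Fin.init xs)) y ∧ SG.Vl k v j (c v (Fin.init xs)) z) ∧
        SG.Mt (t v (Fin.init xs)) (xs (Fin.last n)) y z) ?_
  refine DP.bex hc ((TE.Tb hc k j).add hc (TE.one hc)) (R := fun v xs z =>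
    (SG.Vl k v j (a v (Fin.init (Fin.init xs))) (Fin.init (α := fun _ => M) xs (Fin.last n)) ∧
      SG.Vl k v j (b v (Fin.init (Fin.init xs))) (xs (Fin.last (n + 1))) ∧
      SG.Vl k v j (c v (Fin.init (Fin.init xs))) z) ∧
        SG.Mt (t v (Fin.init (Fin.init xs))) (Fin.init (α := fun _ => M) xs (Fin.last n))
          (xs (Fin.last (n + 1))) z) ?_
  have h1 : TE (n + 3) fun (_ : ℕ → M) xs => Fin.init (α := fun _ => M)
    (Fin.init (α := fun _ => M) xs) (Fin.last n) := (TE.bv (Fin.last n)).lift.lift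
  have h2 : TE (n + 3) fun (_ : ℕ → M) xs => Fin.init (α := fun _ => M) xs (Fin.last (n + 1)) :=
    (TE.bv (Fin.last (n + 1))).lift
  have h3 : TE (n + 3) fun (_ : ℕ → M) xs => xs (Fin.last (n + 2)) := TE.bv _
  exact DP.and (DP.and (DP.Vl hc k j ha.lift.lift.lift h1) (DP.and
    (DP.Vl hc k j hb.lift.lift.lift h2) (DP.Vl hc k j hC.lift.lift.lift h3)))
    (DP.Mt hc ht.lift.lift.lift h1 h2 h3)

theorem Va_nat (hM : NPA M) (k j : ℕ) (v : ℕ → M) (t : M) (a b c : ℕ) :
    Va k j v t (a : M) (b : M) (c : M) ↔ Mt t (nest k v j a) (nest k v j b) (nest k v j c) := by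
  constructor
  · rintro ⟨x, -, y, -, z, -, ⟨hx, hy, hz⟩, h⟩
    rw [Vl_iff hM] at hx hy hz
    rwa [← hx, ← hy, ← hz]
  · intro h
    have key : ∀ i : ℕ, nest k v j i < Tb k j v + 1 := by
      intro i
      rw [lt_succ_iff hM.compat]
      exact Vl_le k v j (i : M) _ ((Vl_iff hM k v j i _).2 rfl)
    exact ⟨_, key a, _, key b, _, key c, ⟨(Vl_iff hM k v j a _).2 rfl, (Vl_iff hM k v j b _).2 rfl,
      (Vl_iff hM k v j c _).2 rfl⟩, h⟩

/-- the atomic fact `d` is true for the sequence coded by `v` -/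
def Af (k j : ℕ) (v : ℕ → M) (d : M) : Prop :=
  EP d fun t d1 => EP d1 fun a d2 => EP d2 fun b c => Va k j v t a b c

theorem DP.Af (hc : Compat M) (k j : ℕ) {d : (ℕ → M) → (Fin n → M) → M} (hd : TE n d) :
    DP n fun v xs => SG.Af k j v (d v xs) := by
  refine DP.EP hc hd (R := fun v _ t d1 => SG.EP d1 fun a d2 => SG.EP d2 fun b c =>
    SG.Va k j v t a b c) ?_
  refine DP.EP hc (TE.bv (Fin.last (n + 1))) (R := fun v xs a d2 => SG.EP d2 fun b c =>
    SG.Va k j v (Fin.init (α := fun _ => M) xs (Fin.last n)) a b c) ?_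
  have h1 : TE (n + 2) fun (_ : ℕ → M) xs => Fin.init (α := fun _ => M) xs (Fin.last n) :=
    (TE.bv (Fin.last n)).lift
  refine DP.EP hc (TE.bv (Fin.last (n + 3))) (R := fun v xs b c =>
    SG.Va k j v (Fin.init (α := fun _ => M) (Fin.init (Fin.init xs)) (Fin.last n))
      (Fin.init (α := fun _ => M) xs (Fin.last (n + 2))) b c) ?_
  exact DP.Va hc k j h1.lift.lift.lift.lift (TE.bv (Fin.last (n + 2))).lift.lift.lift
    (TE.bv (Fin.last (n + 4))).lift (TE.bv (Fin.last (n + 5)))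

theorem Af_nat (hM : NPA M) (k j : ℕ) (v : ℕ → M) (d : ℕ) :
    Af k j v (d : M) ↔ Dg (nest k v j) d = true := by
  unfold Af
  rw [EP_nat hM.compat, EP_nat hM.compat, EP_nat hM.compat, Va_nat hM]
  have e1 : ∀ m : ℕ, ((d.unpair.1 : ℕ) : M) = (m : M) ↔ d.unpair.1 = m := fun m => Nat.cast_inj
  have e0 := e1 0
  have e1' := e1 1
  have e2 := e1 2
  have e3 := e1 3
  have e4 := e1 4
  push_cast at e0 e1' e2 e3 e4
  unfold Mt Dg
  rw [e0, e1', e2, e3, e4]
  simp only [hM.compat.add, hM.compat.mul, hM.compat.zero, hM.compat.one, hM.compat.lt]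
  by_cases h0 : d.unpair.1 = 0
  · simp [h0]
  by_cases h1 : d.unpair.1 = 1
  · simp [h1]
  by_cases h2 : d.unpair.1 = 2
  · simp [h2]
  by_cases h3 : d.unpair.1 = 3
  · simp [h3]
  by_cases h4 : d.unpair.1 = 4
  · simp [h4]
  · simp [h0, h1, h2, h3, h4]

/-- divisibility condition for the literal `e` of the clause `u` -/
def Dv (a c u e : M) : Prop :=
  (u < e ∧ ∃ q < a + 1, a = q * (1 + (e * e + u + 1) * c)) ∨
    (e ≤ u ∧ ∃ q < a + 1, a = q * (1 + (u * u + u + e + 1) * c))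

theorem DP.Dv (hc : Compat M) {a c u e : (ℕ → M) → (Fin n → M) → M} (ha : TE n a) (hC : TE n c)
    (hu : TE n u) (he : TE n e) : DP n fun v xs => SG.Dv (a v xs) (c v xs) (u v xs) (e v xs) := by
  refine DP.or (DP.and (DP.lt hc hu he) ?_) (DP.and (DP.le hc he hu) ?_)
  · refine DP.bex hc (ha.add hc (TE.one hc)) (R := fun v xs q => a v xs =
      q * (1 + (e v xs * e v xs + u v xs + 1) * c v xs)) ?_
    exact DP.eq ha.lift ((TE.bv _).mul hc ((TE.one hc).add hc ((((he.mul hc he).add hc hu).add hc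
      (TE.one hc)).mul hc hC).lift))
  · refine DP.bex hc (ha.add hc (TE.one hc)) (R := fun v xs q => a v xs =
      q * (1 + (u v xs * u v xs + u v xs + e v xs + 1) * c v xs)) ?_
    exact DP.eq ha.lift ((TE.bv _).mul hc ((TE.one hc).add hc (((((hu.mul hc hu).add hc hu).add hc
      he).add hc (TE.one hc)).mul hc hC).lift))

theorem Dv_nat (hM : NPA M) (a c u e : ℕ) :
    Dv (a : M) (c : M) (u : M) (e : M) ↔ 1 + (Nat.pair u e + 1) * c ∣ a := by
  have key : ∀ m : ℕ, (∃ q < (a : M) + 1, (a : M) = q * (1 + ((m : M) + 1) * (c : M))) ↔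
      1 + (m + 1) * c ∣ a := by
    intro m
    constructor
    · rintro ⟨q, hq, h⟩
      rw [lt_succ_iff hM.compat] at hq
      obtain ⟨q', -, rfl⟩ := std_below hM.compat a q hq
      refine ⟨q', ?_⟩
      have h1 : a = q' * (1 + (m + 1) * c) := by exact_mod_cast h
      rw [mul_comm]
      exact h1
    · rintro ⟨q, hq⟩
      refine ⟨q, ?_, ?_⟩
      · rw [lt_succ_iff hM.compat, Nat.cast_le, hq]
        exact Nat.le_mul_of_pos_left q (by omega)
      · conv_lhs => rw [hq]
        push_cast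
        ring
  unfold Dv Nat.pair
  rw [Nat.cast_lt, Nat.cast_le]
  have k1 := key (e * e + u)
  have k2 := key (u * u + u + e)
  push_cast at k1 k2
  rw [k1, k2]
  split_ifs with h
  · constructor
    · rintro (⟨-, h1⟩ | ⟨h1, -⟩)
      · exact h1
      · omega
    · intro h1
      exact Or.inl ⟨h, h1⟩
  · constructor
    · rintro (⟨h1, -⟩ | ⟨-, h1⟩)
      · omega
      · exact h1
    · intro h1
      exact Or.inr ⟨by omega, h1⟩

/-- the literal `e` is true -/
def Lt (k j : ℕ) (v : ℕ → M) (e : M) : Prop :=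
  ∃ h < e + 1, (e = 2 * h ∧ ¬ Af k j v h) ∨ (e = 2 * h + 1 ∧ Af k j v h)

theorem DP.Lt (hc : Compat M) (k j : ℕ) {e : (ℕ → M) → (Fin n → M) → M} (he : TE n e) :
    DP n fun v xs => SG.Lt k j v (e v xs) := by
  refine DP.bex hc (he.add hc (TE.one hc)) (R := fun v xs h => (e v xs = 2 * h ∧ ¬ SG.Af k j v h) ∨
    (e v xs = 2 * h + 1 ∧ SG.Af k j v h)) ?_
  exact DP.or (DP.and (DP.eq he.lift ((TE.ofNat' hc 2).mul hc (TE.bv _))) (DP.Af hc k j
    (TE.bv _)).not) (DP.and (DP.eq he.lift (((TE.ofNat' hc 2).mul hc (TE.bv _)).add hc (TE.one hc)))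
    (DP.Af hc k j (TE.bv _)))

theorem Lt_nat (hM : NPA M) (k j : ℕ) (v : ℕ → M) (e : ℕ) :
    Lt k j v (e : M) ↔ (Dg (nest k v j) (e / 2) = true ↔ e % 2 = 1) := by
  constructor
  · rintro ⟨h, hh, h1⟩
    rw [lt_succ_iff hM.compat] at hh
    obtain ⟨h', -, rfl⟩ := std_below hM.compat e h hh
    rcases h1 with ⟨h1, h2⟩ | ⟨h1, h2⟩
    · have h3 : e = 2 * h' := by exact_mod_cast h1
      rw [Af_nat hM] at h2
      have h4 : e / 2 = h' := by omega
      rw [h4]
      constructor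
      · intro h5
        exact absurd h5 h2
      · intro h5
        omega
    · have h3 : e = 2 * h' + 1 := by exact_mod_cast h1
      rw [Af_nat hM] at h2
      have h4 : e / 2 = h' := by omega
      rw [h4]
      exact ⟨fun _ => by omega, fun _ => h2⟩
  · intro h
    refine ⟨((e / 2 : ℕ) : M), ?_, ?_⟩
    · rw [lt_succ_iff hM.compat, Nat.cast_le]
      omega
    · rw [Af_nat hM]
      rcases Nat.mod_two_eq_zero_or_one e with h1 | h1
      · left
        constructor
        · have h2 : e = 2 * (e / 2) := by omega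
          exact_mod_cast h2
        · intro h2
          rw [h] at h2
          omega
      · right
        constructor
        · have h2 : e = 2 * (e / 2) + 1 := by omega
          exact_mod_cast h2
        · exact h.2 h1

end

/-- The task: the matrix is bounded. -/
theorem taskUF0 : S_UF0 := by
  intro M _ _ _ _ _ hM k j _
  have hc := hM.compat
  have hD : DP 0 fun (v : ℕ → M) (_ : Fin 0 → M) => ∃ u < v 2, ∀ e < v 3, Dv (v 0) (v 1) u e →
      Lt k j v e := by
    refine DP.bex hc (TE.var 2) (R := fun v _ u => ∀ e < v 3, Dv (v 0) (v 1) u e → Lt k j v e) ?_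
    refine DP.ball hc (TE.var 3) (R := fun v xs e => Dv (v 0) (v 1) (xs (Fin.last 0)) e →
      Lt k j v e) ?_
    exact DP.imp (DP.Dv hc (TE.var 0) (TE.var 1) (TE.bv (Fin.last 0)).lift (TE.bv _))
      (DP.Lt hc k j (TE.bv _))
  obtain ⟨φ, h1, h2⟩ := hD
  refine ⟨φ, h1, fun a c L B v h0 h01 h02 h03 => ?_⟩
  have h4 := h2 v default
  refine h4.trans ?_
  unfold DN p4
  simp only [Nat.unpair_pair]
  rw [h0, h01, h02, h03]
  constructor
  · rintro ⟨u, hu, h⟩
    obtain ⟨u', -, rfl⟩ := std_below hc L u hu.le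
    refine ⟨u', by exact_mod_cast hu, fun e he hd => ?_⟩
    rw [← Lt_nat hM]
    exact h e (by exact_mod_cast he) ((Dv_nat hM a c u' e).2 hd)
  · rintro ⟨u, hu, h⟩
    refine ⟨u, by exact_mod_cast hu, fun e he hd => ?_⟩
    obtain ⟨e', -, rfl⟩ := std_below hc B e he.le
    rw [Dv_nat hM] at hd
    rw [Lt_nat hM]
    exact h e' (by exact_mod_cast he) hd

end Pool.Agent.W894.SG
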